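import Mathlib
import Pool.Agent.H84.GHDefs
import Pool.Agent.H84.GHEx

set_option autoImplicit false

namespace Pool.Agent.Results.MP_029391_gt.Counter

open Pool.Agent.H84.GHDefs

theorem result : ∃ (X : Fin 3 → Type) (_ : ∀ i, MetricSpace (X i)) (_ : ∀ i, CompactSpace (X i))
    (_ : ∀ i, Nonempty (X i)),
    ∀ R : Set (∀ i, X i), ¬ ∀ i j, i ≠ j → Optimal (e R i j) :=
  ⟨Pool.Agent.H84.GHEx.P, inferInstance, inferInstance, inferInstance, Pool.Agent.H84.GHEx.noR⟩

end Pool.Agent.Results.MP_029391_gt.Counter
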